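import Mathlib
import Pool.Agent.K1H88.PG.Sum
import Pool.Agent.K1H88.PG.Non4

/-!
The weak form of the conjecture of Manin for ALL smooth complete intersections of the type
`(H_0 + H_1) ∩ (H_1 + H_2) ∩ … ∩ (H_(m-1) + H_0)` in `(ℙ²)^m`, `m ≥ 3`, over the rational numbers,
and ALL big line bundles `L`.

* `m ≥ 3`; the indices `i` are in `ZMod m`, that is, cyclic. `H_i` is the class of a line in the
  factor number `i`.
* `A i`: integer `3 × 3` matrices. The variety `X` is given in `(ℙ²)^m` by the `m` bilinear
  equations `(x i)ᵀ (A i) (x (i+1)) = 0` (`IncK A x`): closed chains of points and lines, if one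
  regards `x i` in turn as point and line. Every complete intersection of this type over the
  rational numbers has such equations. If `X` is smooth of dimension `m`, then it is a Fano variety
  with the anticanonical class `H_0 + … + H_(m-1)` and Picard number `m` (the point `x (m-1)` is
  determined by the others outside of a divisor, and `X` is the blow-up of a tower of
  `ℙ¹`-bundles in an irreducible smooth centre of codimension two). For `m = 3` these are
  smooth Fano threefolds of the family 3.13 (over an algebraically closed field all of them).
* `SmoothK A`: the Jacobian criterion: at all complex points `x` of `X` the gradients of the `m`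
  equations are linearly independent: if `∑ α i ∇ ((x i)ᵀ (A i) (x (i+1))) = 0`, then `α = 0`
  (the component of this gradient in the direction of `x i` is
  `α (i-1) (A (i-1))ᵀ (x (i-1)) + α i (A i) (x (i+1))`).
* `U` (`InUK A x`): the points of `X` such that `(A i)ᵀ (x i)` and `(A (i+1)) (x (i+2))` are not
  proportional, for all `i`; these are the two linear conditions for `x (i+1)`. The complement is
  the union of `m` divisors, of the classes `E_j = H_(j-1) - H_j + H_(j+1)`.
* `Rep v`: `v` is the normalised primitive integer representative of a rational point of a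
  projective space (greatest common divisor of the coordinates `1`, first nonzero coordinate
  positive); `ht v` is its height, the maximum of the absolute values of the coordinates.
* The class with the coordinates `y` is `∑ y_j H_j`. `Eff y`: the class is in the cone generated by
  all `H_j` and all `E_j`. This is the pseudo-effective cone: the `H_j` and `E_j` are effective,
  and the curves of the degrees `(…, 0, 1, 1, 0, …)` (`x i` and `x (i+1)` move, all other points
  are fixed) and `(…, 0, 1, 1, 1, 0, …)` (`x i` moves on a line) cover `X`; by `eff_iff` below,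
  `Eff y` holds if and only if `y` has nonnegative degree on all these curves.
* `Big l`: the class is in the interior of this cone. `fuj l` is the infimum of all `t` such that
  `t L + K` is in this cone, for `L` with the coordinates `l` and `K` with the coordinates
  `(-1, …, -1)`, the canonical class.
* `pts A l T`: the rational points `x` of `U` with `∏ i, H(x i) ^ l i ≤ T`.

The theorem: `U` is not empty, and for all big `l` and all `ε > 0` the number of rational points of
`U` with `∏ i, H(x i) ^ l i ≤ T` is finite and at most `C T ^ (fuj l + ε)`.

The proof: let `P i` be the heights of the points in a dyadic box. (1) The rational points `x i`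
with given neighbours, the pairs `x i, x (i+1)` with given neighbours, and the points `x i` with
one given neighbour are counted by the geometry of numbers, with the greatest common divisors which
occur summed over the divisors of a nonzero integer of a quadratic form (`Pair.two`). (2) A closed
chain is cut at a place where the heights do not allow the loss, and open chains are counted by
induction (`Path.path`); a combinatorial argument (`Comb.comb`) shows that such a place always
exists (`Cyc.cyc`); the result is the bound `∏ P i ^ (1 + ε)` for all boxes. (3) Summation over the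
boxes with the help of `H(x j) ≤ C H(x (j-1)) H(x (j+1))` on `U` (`Sum.upper`).
-/

namespace Pool.Agent.Results.MP_18ea5f_nt.ClosedPolygons

open Matrix Pool.Agent.K1H88.PG

/-- The description of the cone by the degrees on the covering curves. -/
theorem eff_iff {m : ℕ} (y : ZMod m → ℝ) :
    Eff y ↔ (∀ i, 0 ≤ y i + y (i + 1)) ∧ ∀ i, 0 ≤ y (i - 1) + y i + y (i + 1) := by
  constructor
  · intro h
    refine ⟨fun i => h.pair i, fun i => ?_⟩
    obtain ⟨a, b, ha, hb, hy⟩ := h
    have e1 : i - 1 + 1 = i := by ring
    have e2 : i + 1 - 1 = i := by ring
    rw [hy (i - 1), hy i, hy (i + 1), e1, e2]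
    have h1 := ha (i - 1 - 1)
    have h2 := ha (i + 1 + 1)
    have h3 := ha i
    have h4 := hb i
    have h5 := hb (i - 1)
    have h6 := hb (i + 1)
    linarith
  · rintro ⟨h1, h2⟩
    refine ⟨fun j => max (-y j) 0, fun j => y j - (max (-y (j - 1)) 0 - max (-y j) 0 +
      max (-y (j + 1)) 0), fun j => le_max_right _ _, fun j => ?_, fun j => by ring⟩
    have g1 := h1 (j - 1)
    have g2 := h1 j
    have g3 := h2 j
    rw [sub_add_cancel] at g1
    simp only
    rcases max_cases (-y j) 0 with ⟨e0, f0⟩ | ⟨e0, f0⟩ <;>
    rcases max_cases (-y (j - 1)) 0 with ⟨e1, f1⟩ | ⟨e1, f1⟩ <;>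
    rcases max_cases (-y (j + 1)) 0 with ⟨e2, f2⟩ | ⟨e2, f2⟩ <;>
    rw [e0, e1, e2] <;> linarith

theorem result {m : ℕ} [NeZero m] (hm : 3 ≤ m) (A : ZMod m → Matrix (Fin 3) (Fin 3) ℤ)
    (hs : SmoothK fun i => (A i).map (Int.castRingHom ℂ)) :
    (∃ x : ZMod m → Fin 3 → ℂ, (∀ i, x i ≠ 0) ∧
      IncK (fun i => (A i).map (Int.castRingHom ℂ)) x ∧
      InUK (fun i => (A i).map (Int.castRingHom ℂ)) x) ∧
    ∀ l : ZMod m → ℝ, Big l → ∀ ε : ℝ, 0 < ε → ∃ C : ℝ, ∀ T : ℝ, 1 ≤ T →
      (pts A l T).Finite ∧ ((pts A l T).ncard : ℝ) ≤ C * T ^ (fuj l + ε) := by
  have h1 := det_ne hm hs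
  have h2 : ∀ i, (A i).det ≠ 0 := by
    intro i h
    apply h1 i
    rw [← RingHom.mapMatrix_apply, ← RingHom.map_det, h, map_zero]
  exact ⟨nonempty_all hm _ h1 hs, upper hm A h2⟩

end Pool.Agent.Results.MP_18ea5f_nt.ClosedPolygons
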