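import Mathlib
import Pool.Agent.K1H65.CB.Red
import Pool.Agent.K1H65.CB.Hts

/-!
The weak form of the conjecture of Manin for ALL smooth divisors `X` of type `(1,2)` in the product
of a projective space of dimension `N - 1 ≥ 2` and a projective plane, over the rational numbers,
and all big and nef line bundles `L`.

* `M 0, …, M (N-1)`: symmetric integer `3 × 3` matrices. `X` is the divisor
  `∑ i, x i * (yᵀ M i y) = 0` in `ℙ^(N-1) × ℙ²`; every divisor of type `(1,2)` over the rational
  numbers has such an equation. `gm M x = ∑ i, x i • M i` is the matrix of the conic over `x`, and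
  `qf A y = yᵀ A y`, so that the equation is `qf (gm M x) y = 0`.
* `Smooth M`: at no complex point `(x, y)` of `X` do all partial derivatives of the equation
  vanish; these are `qf (M i) y` and `2 (gm M x y) j`.
* `U`: the points `(x, y)` of `X` such that the conic over `x` is smooth, i.e.
  `(gm M x).det ≠ 0`.
* `Rep v`: `v` is the normalised primitive integer representative of a rational point of a
  projective space (greatest common divisor of the coordinates `1`, first nonzero coordinate
  positive); `ht v` is its height, the maximum of the absolute values of the coordinates.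
* `fuj (N - 1) 1 l` is the infimum of all `t` such that `t L + K` is in the cone generated by the
  classes `(1,0)` and `(0,1)`, for `L = (l 0, l 1)` and `K = (-(N-1), -1)`, the canonical class.

The theorem: `U` is not empty, and for all `l` with `l 0, l 1 > 0` and all `ε > 0` the number of
rational points of `U` with `H(x) ^ l 0 * H(y) ^ l 1 ≤ T` is finite and at most
`C T ^ (fuj (N - 1) 1 l + ε)`.

The proof: (1) a bound for the number of rational points of bounded height on a plane conic in which
the minors of the matrix enter only through the largest `E` such that `E ^ 2` divides all of them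
(`con3`); (2) the average of `E / |det| ^ (1/3)` over a linear system without base points, over
lines which contain no double line (`pencil`, `esum`); (3) the count of the pairs (degenerate conic,
point on it) (`deg_count`); (4) a descent from large to small parameters `x` by the geometry of
numbers, and the reduction of linearly dependent systems to independent ones (`box_all`).
-/

namespace Pool.Agent.Results.MP_18ea5f_nt.DivisorsOfTypeOneTwo

open Pool.Agent.K1H65.CB
open Pool.Agent.R38.NC (qf)
open Pool.Agent.H548.WM (ht Rep bx mem_bx)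

theorem result {N : ℕ} (hN : 3 ≤ N) (M : Fin N → Matrix (Fin 3) (Fin 3) ℤ)
    (hM : ∀ i, (M i).IsSymm) (hs : Smooth M) :
    (∃ (x : Fin N → ℂ) (y : Fin 3 → ℂ), x ≠ 0 ∧ y ≠ 0 ∧ qf (gm M x) y = 0 ∧
      (gm M x).det ≠ 0) ∧
    ∀ l : Fin 2 → ℝ, (∀ i, 0 < l i) → ∀ ε : ℝ, 0 < ε → ∃ C : ℝ, ∀ T : ℝ, 1 ≤ T →
      {t : (Fin N → ℤ) × (Fin 3 → ℤ) | Rep t.1 ∧ Rep t.2 ∧
        (qf (gm M t.1) t.2 = 0 ∧ (gm M t.1).det ≠ 0) ∧
        (ht t.1 : ℝ) ^ l 0 * (ht t.2 : ℝ) ^ l 1 ≤ T}.Finite ∧
      ({t : (Fin N → ℤ) × (Fin 3 → ℤ) | Rep t.1 ∧ Rep t.2 ∧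
        (qf (gm M t.1) t.2 = 0 ∧ (gm M t.1).det ≠ 0) ∧
        (ht t.1 : ℝ) ^ l 0 * (ht t.2 : ℝ) ^ l 1 ≤ T}.ncard : ℝ) ≤
        C * T ^ (fuj (N - 1) 1 l + ε) := by
  classical
  have hb : Bpf M := bpf_of_smooth hN hs
  obtain ⟨d, hd⟩ := exists_det_ne M hM (bpf_int hb)
  refine ⟨exists_point M d hd, ?_⟩
  refine upper (p := N - 1) (q := 1) (by omega) le_rfl
    (fun x y => qf (gm M x) y = 0 ∧ (gm M x).det ≠ 0) ?_
  intro ε hε
  obtain ⟨C, hC0, hC⟩ := box_all hM hb ε hε
  refine ⟨C, hC0, fun A B hA hB => ?_⟩
  refine le_trans ?_ ((hC A B hA hB).trans (le_of_eq (by rw [pow_one])))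
  unfold nd
  have h1 : (((bx N A) ×ˢ (bx 3 B)).filter fun t => Rep t.1 ∧ Rep t.2 ∧
      (qf (gm M t.1) t.2 = 0 ∧ (gm M t.1).det ≠ 0)) ⊆
      ((bx N A).filter (fun x => (gm M x).det ≠ 0)).biUnion fun x =>
        (((bx 3 B).filter fun y => Rep y ∧ qf (gm M x) y = 0).image fun y => (x, y)) := by
    intro t ht
    rw [Finset.mem_filter, Finset.mem_product] at ht
    rw [Finset.mem_biUnion]
    refine ⟨t.1, ?_, ?_⟩
    · rw [Finset.mem_filter]
      exact ⟨ht.1.1, ht.2.2.2.2⟩
    · rw [Finset.mem_image]
      refine ⟨t.2, ?_, rfl⟩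
      rw [Finset.mem_filter]
      exact ⟨ht.1.2, ht.2.2.1, ht.2.2.2.1⟩
  have h2 := (Finset.card_le_card h1).trans Finset.card_biUnion_le
  have h3 : ∀ x ∈ (bx N A).filter (fun x => (gm M x).det ≠ 0),
      (((bx 3 B).filter fun y => Rep y ∧ qf (gm M x) y = 0).image fun y => (x, y)).card ≤
      ((bx 3 B).filter fun y => Rep y ∧ qf (gm M x) y = 0).card := fun x _ =>
    Finset.card_image_le
  exact_mod_cast h2.trans (Finset.sum_le_sum h3)

end Pool.Agent.Results.MP_18ea5f_nt.DivisorsOfTypeOneTwo
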