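import Mathlib
import Pool.Agent.K1H88.CH.Final

/-!
The weak form of the conjecture of Manin for ALL smooth complete intersections which are open
chains of bilinear equations in `ℙ² × … × ℙ²` with one or two legs (projective lines) at each of
the two ends, over the rational numbers, and ALL big line bundles `L`.

* `m ≥ 0` and `r, r' ∈ {1, 2}`. The ambient space is `(ℙ¹)^r × (ℙ²)^(m+1) × (ℙ¹)^r'`; a point has
  the coordinates `x.t k` (the `r` legs on the left), `x.p j` (the vertices), `x.t' k` (the `r'`
  legs on the right), see `Pt`.
* `Eqs`: the coefficients of the `m + 2` equations: `cov c (x.t) ⬝ (x.p 0) = 0`, where `cov c` is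
  the general multilinear map from the legs on the left to the vectors with three coordinates (a
  form of degree one in each of the legs and in `x.p 0`); `(x.p i)ᵀ (A i) (x.p (i+1)) = 0` for
  `i < m`; `cov c' (x.t') ⬝ (x.p m) = 0`. In `On` they are written with the two linear conditions
  `lcov` and `rcov` for each vertex. Every complete intersection of this type over the
  rational numbers has such equations with integer coefficients.
* `Smooth`: the criterion of Jacobi at all complex points. If `X` is smooth, then it is a Fano
  variety of dimension `r + r' + m` with the anticanonical class `(1, …, 1)`, the sum of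
  the classes of all coordinates, and with the Picard number `r + (m + 1) + r'` (`X` is obtained
  from the tower of `ℙ¹`-bundles of the points `(x.p 0, …, x.p m)` by products with `ℙ¹` and
  blow-ups of irreducible smooth centres of codimension two). For `m = 0` and `(r, r') = (1, 2)`
  these are the smooth Fano threefolds of the family 4.3; for `m = 1` and `r = r' = 1` it is the
  smooth Fano threefold 4.7; there are such varieties of every dimension which is at least two.
* `U` (`InU`): the points of `X` such that for each vertex the two linear conditions `lcov` and
  `rcov` are not proportional, and for each leg its equation (as a linear form in this leg,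
  with the coefficients `leg`) is not zero. The complement is the union of divisors, one for each
  coordinate `j`, of the class `N_j - e_j`, where `e_j` is the class of the coordinate and `N_j` the
  sum of the classes of its neighbours.
* `Idx`, `nb`: the graph of the coordinates; `nb i k` if there is an equation with the coordinates
  `i` and `k`.
* `Rep v`: `v` is the normalised primitive integer representative of a rational point of a
  projective space (greatest common divisor of the coordinates `1`, first nonzero coordinate
  positive); `ht v` is its height, the maximum of the absolute values of the coordinates.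
* The class with the coordinates `y` is `∑ y_j e_j`. `Eff nb y`: it is in the cone generated by all
  `e_j` and all `N_j - e_j`. This is the pseudo-effective cone: the generators are effective, and
  the following curves cover `X`: for two neighbours `i`, `k`: only the coordinates `i` and `k`
  move, and their degrees are `1`; for a coordinate `j` with the neighbours `i`, `k` which
  are not neighbours of each other (then `j` is a vertex): the point `x_j` moves on a line of
  the plane, all coordinates except for `i`, `j`, `k` are fixed, and the degrees of these three are
  `1`. By `eff_iff` below, `Eff nb y` holds if and only if `y` has nonnegative degree on all these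
  curves.
* `Big nb l`: the class is in the interior of this cone. `fuj nb l` is the infimum of all `t` such
  that `t L + K` is in this cone, for `L` with the coordinates `l` and `K` with the coordinates
  `(-1, …, -1)`, the canonical class.
* `pts X l T`: the rational points of `U` such that the product of the `H(x_i) ^ l i`, over all
  coordinates `i`, is at most `T`.

The theorem: `U` is not empty, and for all big `l` and all `ε > 0` the number of rational points in
`pts X l T` is finite and at most `C T ^ (fuj nb l + ε)`.

The proof: (1) estimates for an end with one vertex: the numbers of legs for a given vertex, and of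
the legs together with the vertex for a given second condition for the vertex (`Pencil`, `Ends3`).
(2) Chains with one end are counted by induction (`left`, `right`), chains with two ends by
cutting them at a place where the sizes of the coordinates do not allow a loss; such a place always
exists (`both`, `combLR`); the result is the bound `∏ P_i ^ (1 + ε)` for boxes of the sizes
`P_i` (`boxes`). (3) Summation over the boxes with the help of `H(x_j) ≤ C ∏ H(x_k)` on `U`, where
the product is over the neighbours of `j` (`nb_ht`, `upper`). (4) For smooth `X` the ends and the
matrices are nondegenerate (`Smooth.left`, `Smooth.right`, `Smooth.det`, `Bpf.det`).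
-/

namespace Pool.Agent.Results.MP_18ea5f_nt.OpenChains

open Matrix Pool.Agent.K1H88.CH

/-- The description of the cone by the degrees on the covering curves. -/
theorem eff_iff {r m r' : ℕ} (y : Idx r m r' → ℝ) : Eff nb y ↔
    (∀ i k, nb i k → 0 ≤ y i + y k) ∧
      ∀ i j k, nb j i → nb j k → ¬ nb i k → i ≠ k → 0 ≤ y i + y j + y k :=
  Pool.Agent.K1H88.CH.eff_iff nb_symm nb_claw y

theorem result {r m r' : ℕ} (hr : r = 1 ∨ r = 2) (hr' : r' = 1 ∨ r' = 2) (X : Eqs ℤ r m r')
    (hs : Smooth X.toC) :
    (∃ x : Pt ℂ r m r', (∀ k, x.t k ≠ 0) ∧ (∀ j, x.p j ≠ 0) ∧ (∀ k, x.t' k ≠ 0) ∧
      On X.toC x ∧ InU X.toC x) ∧
    ∀ l : Idx r m r' → ℝ, Big nb l → ∀ ε : ℝ, 0 < ε → ∃ C : ℝ, ∀ T : ℝ, 1 ≤ T →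
      (pts X l T).Finite ∧ ((pts X l T).ncard : ℝ) ≤ C * T ^ (fuj nb l + ε) := by
  have h1 : ∀ i, (X.A i).det ≠ 0 := by
    intro i h
    apply hs.det (by omega) (by omega) i
    change ((X.A i).map (Int.castRingHom ℂ)).det = 0
    rw [← RingHom.mapMatrix_apply, ← RingHom.map_det, h, map_zero]
  exact ⟨hs.nonempty hr hr', count X (hasEnd_of hr (hs.left (by omega) (by omega))) h1
    (hasEnd_of hr' (hs.right (by omega) (by omega))) (by omega)⟩

end Pool.Agent.Results.MP_18ea5f_nt.OpenChains
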