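import Pool.Agent.K1H88.DW.Final

/-!
# The weak Manin conjecture for all quintic del Pezzo surfaces, and for the forms of `(ℙ¹)ⁿ // SL₂`

Every number field, every big line bundle. `n = 5`: all smooth quintic del Pezzo surfaces.
-/

set_option autoImplicit false

namespace Pool.Agent.Results.MP_18ea5f_nt.QuinticDelPezzoAllLineBundles

open Pool.Agent.K1H88.DF (deg Distinct Same)
open Pool.Agent.K1H88.DW (tot ht fuj)

/-- `E k`: finite extensions of the number field `F`, `n = ∑ [E k : F] ≥ 5`; `a k ≥ 1`: weights, each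
`2 (a k)` less than the sum of the weights of all `n` points. Any set `A` of pairwise inequivalent
pairs `(x, y)`, `x, y ∈ ∏ E k`, with `n` different conjugates `(σ(x) : σ(y))` and height at most `T`
is finite with at most `C T ^ fuj (log T) ^ (number of the E k - 1)` elements. -/
theorem result (F : Type) [Field F] [NumberField F] {ι : Type} [Fintype ι] (E : ι → Type)
    [∀ k, Field (E k)] [∀ k, NumberField (E k)] [∀ k, Algebra F (E k)] (a : ι → ℕ)
    (hn : 5 ≤ deg F E) (ha : ∀ k, 1 ≤ a k) (hbig : ∀ k, 2 * a k < tot F E a) :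
    ∃ C : ℝ, ∀ T : ℝ, 2 ≤ T → ∀ A : Set ((∀ k, E k) × (∀ k, E k)),
      (∀ P ∈ A, Distinct F E P.1 P.2 ∧ ht F E a P.1 P.2 ≤ T) →
      (∀ P ∈ A, ∀ Q ∈ A, Same F E P Q → P = Q) →
      A.Finite ∧ (A.ncard : ℝ) ≤ C * T ^ fuj F E a * Real.log T ^ (Fintype.card ι - 1) :=
  Pool.Agent.K1H88.DW.final F E a (by omega) ha hbig

end Pool.Agent.Results.MP_18ea5f_nt.QuinticDelPezzoAllLineBundles
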